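import Pool.Agent.Helper96.PolySurf.Surf7
import Pool.Agent.Helper96.PolySurf.Step4
import Pool.Agent.Helper96.PolySurf.Crit
import Pool.Agent.Helper96.PolySurf.ToClosing

namespace Pool.Agent.Results.MP_93b2dd_co.Unbounded

open PolySurf

/-- The chromatic number of `S_g`-polytopes is unbounded: for every number `C` of colours there
are a genus `g` and an `S_g`-polytope whose faces cannot be properly coloured with `C` colours. -/
theorem result : ∀ C : ℕ, ∃ (g : ℕ) (V : Type) (_ : Fintype V) (_ : DecidableEq V) (x : V → E3)
    (F : Finset (Finset V)), IsSgPolytope g x F ∧ ¬ FaceColorable x F C := by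
  intro C
  obtain ⟨V, hV, G, ⟨cfg⟩, hG⟩ := exists_config (C + 2)
  obtain ⟨S, hne, hcol, hdeg, hdart, hconn⟩ := exists_critical G (C + 2) (by omega) hG
  have hfin : Finite (S : Set V) := inferInstance
  obtain ⟨D⟩ := exists_closing (cfg.restrict (Subtype.val : S → V) Subtype.val_injective) hdeg
  refine ⟨_, Vtx (G.comap (Subtype.val : S → V)), inferInstance, inferInstance, D.x3, D.faces,
    D.isSgPolytope hne.to_subtype hdart hconn, ?_⟩
  intro h
  exact hcol ((D.colorable_of_faceColorable hdart h).mono (by omega))

end Pool.Agent.Results.MP_93b2dd_co.Unbounded
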